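import Pool.Agent.K1H35.LK.Defs

/-!
# The product of string links (piece T2 of MP_5b16f0_gt)
-/

set_option autoImplicit false

noncomputable section

namespace Pool.Agent.K1H73.LK

open Pool.Agent.K1H35.LK

/-! ## Cycles -/

theorem ap_inv (p : Equiv.Perm ℕ) (a : ℕ) : p (p⁻¹ a) = a := by
  rw [← Equiv.Perm.mul_apply, mul_inv_cancel, Equiv.Perm.one_apply]

theorem inv_ap (p : Equiv.Perm ℕ) (a : ℕ) : p⁻¹ (p a) = a := by
  rw [← Equiv.Perm.mul_apply, inv_mul_cancel, Equiv.Perm.one_apply]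

theorem sc_map {p q : Equiv.Perm ℕ} (f : ℕ → ℕ) (P : ℕ → Prop)
    (hP : ∀ a, P a → P (p a)) (hP' : ∀ a, P a → P (p⁻¹ a))
    (h : ∀ a, P a → q.SameCycle (f a) (f (p a))) {a b : ℕ} (ha : P a) (hab : p.SameCycle a b) :
    q.SameCycle (f a) (f b) := by
  obtain ⟨i, hi⟩ := hab
  subst hi
  have key : ∀ i : ℤ, P ((p ^ i) a) ∧ q.SameCycle (f a) (f ((p ^ i) a)) := by
    intro i
    induction i using Int.induction_on with
    | zero => exact ⟨by simpa using ha, by simpa using Equiv.Perm.SameCycle.refl q (f a)⟩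
    | succ i ih =>
      have e : (p ^ ((i : ℤ) + 1)) a = p ((p ^ (i : ℤ)) a) := by
        rw [add_comm, zpow_add, Equiv.Perm.mul_apply, zpow_one]
      rw [e]
      exact ⟨hP _ ih.1, ih.2.trans (h _ ih.1)⟩
    | pred i ih =>
      have e : (p ^ (-(i : ℤ) - 1)) a = p⁻¹ ((p ^ (-(i : ℤ))) a) := by
        rw [sub_eq_add_neg, add_comm, zpow_add, Equiv.Perm.mul_apply, zpow_neg_one]
      rw [e]
      refine ⟨hP' _ ih.1, ih.2.trans ?_⟩
      have := h _ (hP' _ ih.1)
      rw [ap_inv] at this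
      exact this.symm
  exact (key i).2

theorem sc_inv {p : Equiv.Perm ℕ} (f : ℕ → ℕ) (h : ∀ a, f (p a) = f a) {a b : ℕ}
    (hab : p.SameCycle a b) : f a = f b := by
  have := sc_map (p := p) (q := 1) f (fun _ => True) (fun _ _ => trivial) (fun _ _ => trivial)
    (fun a _ => by rw [h a]) trivial hab
  exact Equiv.Perm.sameCycle_one.mp this

/-- In a permutation with an invariant finite set every element of a cycle is reached by a
nonnegative power. -/
theorem sc_nat {p : Equiv.Perm ℕ} {N : ℕ} (hp : ∀ a, a < N → p a < N) {a i : ℕ} (ha : a < N)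
    (h : p.SameCycle i a) : ∃ t : ℕ, (p ^ t) a = i := by
  have hpow : ∀ t : ℕ, (p ^ t) a < N := by
    intro t
    induction t with
    | zero => simpa using ha
    | succ t ih => rw [pow_succ', Equiv.Perm.mul_apply]; exact hp _ ih
  obtain ⟨t1, t2, hne, he⟩ : ∃ t1 t2 : ℕ, t1 ≠ t2 ∧ (p ^ t1) a = (p ^ t2) a := by
    obtain ⟨t1, t2, hne, he⟩ := Finite.exists_ne_map_eq_of_infinite
      (fun t : ℕ => (⟨(p ^ t) a, hpow t⟩ : Fin N))
    exact ⟨t1, t2, hne, congrArg Fin.val he⟩
  have main : ∀ t1 t2 : ℕ, t1 < t2 → (p ^ t1) a = (p ^ t2) a → ∃ t : ℕ, (p ^ t) a = i := by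
    intro t1 t2 hlt he
    have hper : (p ^ ((t2 - t1 : ℕ))) a = a := by
      have e : (p ^ t2) = p ^ t1 * p ^ (t2 - t1) := by rw [← pow_add]; congr 1; omega
      rw [e, Equiv.Perm.mul_apply] at he
      exact ((p ^ t1).injective he).symm
    obtain ⟨z, hz⟩ := h.symm
    have hn : (0 : ℤ) < ((t2 - t1 : ℕ) : ℤ) := by omega
    set n : ℕ := t2 - t1 with hndef
    refine ⟨(z % (n : ℤ)).toNat, ?_⟩
    have hmod : 0 ≤ z % (n : ℤ) := Int.emod_nonneg _ hn.ne'
    have e1 : (p ^ ((z % (n : ℤ)).toNat)) a = (p ^ (z % (n : ℤ))) a := by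
      rw [← zpow_natCast, Int.toNat_of_nonneg hmod]
    rw [e1]
    have e2 : z = z % (n : ℤ) + (n : ℤ) * (z / (n : ℤ)) := (Int.emod_add_mul_ediv z n).symm
    have hperz : ∀ w : ℤ, (p ^ ((n : ℤ) * w)) a = a := by
      intro w
      rw [zpow_mul, zpow_natCast]
      have : ∀ w : ℤ, ((p ^ n) ^ w) a = a := fun w =>
        Equiv.Perm.zpow_apply_eq_self_of_apply_eq_self hper w
      exact this w
    rw [← hz]
    conv_rhs => rw [e2, zpow_add, Equiv.Perm.mul_apply, hperz]
  rcases lt_or_gt_of_ne hne with h1 | h1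
  · exact main t1 t2 h1 he
  · exact main t2 t1 h1 he.symm

/-- Insertion of a point into a cycle. -/
theorem sc_swap {p : Equiv.Perm ℕ} {N c : ℕ} (hN : p N = N) (hc : c ≠ N) {a b : ℕ} (ha : a ≠ N)
    (hb : b ≠ N) : (p * Equiv.swap c N).SameCycle a b ↔ p.SameCycle a b := by
  have hpN : ∀ x, x ≠ N → p x ≠ N := by
    intro x hx h
    exact hx (p.injective (h.trans hN.symm))
  have hpN' : ∀ x, x ≠ N → p⁻¹ x ≠ N := by
    intro x hx h
    apply hx
    have := congrArg p h
    rw [ap_inv, hN] at this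
    exact this
  have e1 : (p * Equiv.swap c N) c = N := by simp [hN]
  have e2 : (p * Equiv.swap c N) N = p c := by simp
  have e3 : ∀ x, x ≠ c → x ≠ N → (p * Equiv.swap c N) x = p x := by
    intro x h1 h2
    rw [Equiv.Perm.mul_apply, Equiv.swap_apply_of_ne_of_ne h1 h2]
  constructor
  · intro h
    have := sc_map (p := p * Equiv.swap c N) (q := p) (fun x => if x = N then c else x)
      (fun _ => True) (fun _ _ => trivial) (fun _ _ => trivial) (by
        intro x _
        by_cases h1 : x = N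
        · subst h1
          rw [e2, if_pos rfl, if_neg (hpN c hc)]
          exact ⟨1, by simp⟩
        · by_cases h2 : x = c
          · subst h2
            rw [e1, if_neg h1, if_pos rfl]
          · rw [e3 x h2 h1, if_neg h1, if_neg (hpN x h1)]
            exact ⟨1, by simp⟩) trivial h
    simpa [ha, hb] using this
  · intro h
    exact sc_map (p := p) (q := p * Equiv.swap c N) (fun x => x) (fun x => x ≠ N) hpN hpN' (by
        intro x hx
        by_cases h2 : x = c
        · subst h2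
          refine ⟨2, ?_⟩
          have : ((p * Equiv.swap x N) ^ (2 : ℤ)) x =
              (p * Equiv.swap x N) ((p * Equiv.swap x N) x) := by
            rw [show (2 : ℤ) = 1 + 1 from rfl, zpow_add, Equiv.Perm.mul_apply, zpow_one]
          rw [this, e1, e2]
        · exact ⟨1, by rw [zpow_one, e3 x h2 hx]⟩) ha h

/-- `Ok` for a permutation with one more point in a cycle. -/
theorem ok_swap {p : Equiv.Perm ℕ} {m N c : ℕ} (hmN : m ≤ N) (hN : p N = N) (hc : c < N) :
    Ok m (N + 1) (p * Equiv.swap c N) ↔ Ok m N p := by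
  have hsc : (p * Equiv.swap c N).SameCycle c N := ⟨1, by simp [hN]⟩
  constructor
  · rintro ⟨h1, h2⟩
    refine ⟨?_, ?_⟩
    · intro a ha
      obtain ⟨i, hi, hs⟩ := h1 a (by omega)
      exact ⟨i, hi, (sc_swap hN hc.ne (by omega) (by omega)).mp hs⟩
    · intro i hi j hj h
      exact h2 i hi j hj ((sc_swap hN hc.ne (by omega) (by omega)).mpr h)
  · rintro ⟨h1, h2⟩
    refine ⟨?_, ?_⟩
    · intro a ha
      rcases Nat.lt_or_ge a N with h | h
      · obtain ⟨i, hi, hs⟩ := h1 a h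
        exact ⟨i, hi, (sc_swap hN hc.ne (by omega) (by omega)).mpr hs⟩
      · have : a = N := by omega
        subst this
        obtain ⟨i, hi, hs⟩ := h1 c hc
        exact ⟨i, hi, ((sc_swap hN hc.ne (by omega) (by omega)).mpr hs).trans hsc⟩
    · intro i hi j hj h
      exact h2 i hi j hj ((sc_swap hN hc.ne (by omega) (by omega)).mp h)

/-- `Ok` for a conjugate permutation. -/
theorem ok_conj {p τ : Equiv.Perm ℕ} {m N : ℕ} (hm : ∀ a, a < m → τ a = a)
    (hN : ∀ a, a < N → τ⁻¹ a < N) (h : Ok m N p) : Ok m N (τ * p * τ⁻¹) := by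
  have hm' : ∀ a, a < m → τ⁻¹ a = a := by
    intro a ha
    rw [Equiv.Perm.inv_eq_iff_eq]
    exact (hm a ha).symm
  refine ⟨?_, ?_⟩
  · intro a ha
    obtain ⟨i, hi, hs⟩ := h.1 _ (hN a ha)
    refine ⟨i, hi, ?_⟩
    rw [Equiv.Perm.sameCycle_conj, hm' i hi]
    exact hs
  · intro i hi j hj hs
    rw [Equiv.Perm.sameCycle_conj, hm' i hi, hm' j hj] at hs
    exact h.2 i hi j hj hs

/-- A colouring of the strands of a string link. -/
theorem exists_col {p : Equiv.Perm ℕ} {m N : ℕ} (hmN : m ≤ N) (hp : ∀ a, a < N → p a < N)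
    (hp' : ∀ a, N ≤ a → p a = a) (h : Ok m N p) :
    ∃ col : ℕ → ℕ, (∀ i, i < m → col i = i) ∧ ∀ a, col (p a) = col a := by
  classical
  have hch : ∀ a, ∃ i, (a < N → i < m ∧ p.SameCycle i a) ∧ (N ≤ a → i = a) := by
    intro a
    rcases Nat.lt_or_ge a N with ha | ha
    · obtain ⟨i, hi, hs⟩ := h.1 a ha
      exact ⟨i, fun _ => ⟨hi, hs⟩, fun h => absurd h (by omega)⟩
    · exact ⟨a, fun h => absurd h (by omega), fun _ => rfl⟩
  choose col hcol using hch
  refine ⟨col, ?_, ?_⟩
  · intro i hi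
    have := (hcol i).1 (by omega)
    exact h.2 _ this.1 _ hi this.2
  · intro a
    rcases Nat.lt_or_ge a N with ha | ha
    · have h1 := (hcol a).1 ha
      have h2 := (hcol (p a)).1 (hp a ha)
      refine h.2 _ h2.1 _ h1.1 (h2.2.trans (Equiv.Perm.SameCycle.symm (h1.2.trans ⟨1, by simp⟩)))
    · rw [hp' a ha]

theorem io_lt {m k a : ℕ} (h : a < m) : io m k a = a := if_pos h

theorem io_ge {m k a : ℕ} (h : m ≤ a) : io m k a = a + k := if_neg (by omega)

theorem ok_mul {m k k' : ℕ} {p q Q : Equiv.Perm ℕ}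
    (hp : ∀ a, a < m + k → p a < m + k) (hp' : ∀ a, m + k ≤ a → p a = a)
    (hq : ∀ a, a < m + k' → q a < m + k') (hq' : ∀ a, m + k' ≤ a → q a = a)
    (hQ : ∀ a, Q (io m k a) = io m k (q a)) (hQ' : ∀ a, m ≤ a → a < m + k → Q a = a)
    (h1 : Ok m (m + k) p) (h2 : Ok m (m + k') q) : Ok m (m + (k + k')) (p * Q) := by
  obtain ⟨cd, cd1, cd2⟩ := exists_col (by omega) hp hp' h1
  obtain ⟨ce, ce1, ce2⟩ := exists_col (by omega) hq hq' h2
  -- the strands `< m`
  have hcA : ∀ a, a < m + k → ∃ i < m, (p * Q).SameCycle i a := by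
    have key : ∀ t a, a < m + k → (p ^ t) a < m → ∃ i < m, (p * Q).SameCycle i a := by
      intro t
      induction t with
      | zero =>
        intro a _ h
        exact ⟨a, by simpa using h, Equiv.Perm.SameCycle.refl _ _⟩
      | succ t ih =>
        intro a ha h
        rcases Nat.lt_or_ge a m with h' | h'
        · exact ⟨a, h', Equiv.Perm.SameCycle.refl _ _⟩
        · rw [pow_succ, Equiv.Perm.mul_apply] at h
          obtain ⟨i, hi, hs⟩ := ih (p a) (hp a ha) h
          refine ⟨i, hi, hs.trans (Equiv.Perm.SameCycle.symm ⟨1, ?_⟩)⟩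
          rw [zpow_one, Equiv.Perm.mul_apply, hQ' a h' ha]
    intro a ha
    obtain ⟨i, hi, hs⟩ := h1.1 a ha
    obtain ⟨t, ht⟩ := sc_nat hp ha hs
    exact key t a ha (by rw [ht]; exact hi)
  have hcB : ∀ z, m ≤ z → z < m + k' → ∃ i < m, (p * Q).SameCycle i (z + k) := by
    have key : ∀ t z, m ≤ z → z < m + k' → (q ^ t) z < m →
        ∃ i < m, (p * Q).SameCycle i (z + k) := by
      intro t
      induction t with
      | zero =>
        intro z hz _ h
        rw [pow_zero, Equiv.Perm.one_apply] at h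
        omega
      | succ t ih =>
        intro z hz hz' h
        rw [pow_succ, Equiv.Perm.mul_apply] at h
        have hstep : (p * Q) (z + k) = p (io m k (q z)) := by
          rw [Equiv.Perm.mul_apply, ← io_ge (k := k) hz, hQ]
        have hcyc : (p * Q).SameCycle (p (io m k (q z))) (z + k) :=
          Equiv.Perm.SameCycle.symm ⟨1, by rw [zpow_one, hstep]⟩
        rcases Nat.lt_or_ge (q z) m with h' | h'
        · rw [io_lt h'] at hcyc
          obtain ⟨i, hi, hs⟩ := hcA (p (q z)) (hp _ (by omega))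
          exact ⟨i, hi, hs.trans hcyc⟩
        · obtain ⟨i, hi, hs⟩ := ih (q z) h' (hq z hz') h
          rw [io_ge h', hp' _ (by omega)] at hcyc
          exact ⟨i, hi, hs.trans hcyc⟩
    intro z hz hz'
    obtain ⟨i, hi, hs⟩ := h2.1 z hz'
    obtain ⟨t, ht⟩ := sc_nat hq hz' hs
    exact key t z hz hz' (by rw [ht]; exact hi)
  refine ⟨?_, ?_⟩
  · intro a ha
    rcases Nat.lt_or_ge a (m + k) with h | h
    · exact hcA a h
    · obtain ⟨i, hi, hs⟩ := hcB (a - k) (by omega) (by omega)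
      rw [Nat.sub_add_cancel (by omega)] at hs
      exact ⟨i, hi, hs⟩
  · -- colouring
    obtain ⟨col, c1, c2, c3⟩ : ∃ col : ℕ → ℕ, (∀ a, a < m → col a = a) ∧
        (∀ a, m ≤ a → a < m + k → col a = cd a) ∧ (∀ a, m + k ≤ a → col a = ce (a - k)) := by
      refine ⟨fun a => if a < m then a else if a < m + k then cd a else ce (a - k), ?_, ?_, ?_⟩
      · intro a ha; simp [ha]
      · intro a ha ha'
        have : ¬ a < m := by omega
        simp [this, ha']
      · intro a ha
        have h3 : ¬ a < m := by omega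
        have h4 : ¬ a < m + k := by omega
        simp [h3, h4]
    have hcj : ∀ j, j < m → col (p j) = j := by
      intro j hj
      have h3 := hp j (by omega)
      have h4 : cd (p j) = j := by rw [cd2, cd1 j hj]
      rcases Nat.lt_or_ge (p j) m with h5 | h5
      · rw [cd1 _ h5] at h4; rw [c1 _ h5]; exact h4
      · rw [c2 _ h5 h3]; exact h4
    intro i hi j hj h
    have := sc_inv col (by
      intro a
      rw [Equiv.Perm.mul_apply]
      rcases Nat.lt_or_ge a m with ha | ha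
      · rw [c1 a ha]
        have e : Q a = io m k (q a) := by rw [← hQ, io_lt ha]
        rw [e]
        rcases Nat.lt_or_ge (q a) m with h' | h'
        · rw [io_lt h', hcj _ h']
          have := ce2 a
          rw [ce1 _ h', ce1 _ ha] at this
          exact this
        · rw [io_ge h', hp' _ (by omega), c3 _ (by omega), Nat.add_sub_cancel, ce2, ce1 _ ha]
      · rcases Nat.lt_or_ge a (m + k) with ha' | ha'
        · rw [hQ' a ha ha', c2 a ha ha']
          have h3 := hp a ha'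
          have h4 := cd2 a
          rcases Nat.lt_or_ge (p a) m with h5 | h5
          · rw [cd1 _ h5] at h4; rw [c1 _ h5]; exact h4
          · rw [c2 _ h5 h3]; exact h4
        · rw [c3 a ha']
          have e : Q a = io m k (q (a - k)) := by
            rw [← hQ, io_ge (by omega), Nat.sub_add_cancel (by omega)]
          rw [e]
          rcases Nat.lt_or_ge (q (a - k)) m with h' | h'
          · rw [io_lt h', hcj _ h']
            have := ce2 (a - k)
            rw [ce1 _ h'] at this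
            exact this
          · rw [io_ge h', hp' _ (by omega), c3 _ (by omega), Nat.add_sub_cancel, ce2]) h
    rw [c1 i hi, c1 j hj] at this
    exact this

/-! ## Moves preserve validity -/

theorem s_mem_BN {i N : ℕ} (h : i + 1 < N) : s i ∈ BN N := Subgroup.subset_closure ⟨i, h, rfl⟩

theorem s_mem_BC {m i N : ℕ} (hm : m ≤ i) (h : i + 1 < N) : s i ∈ BC m N :=
  Subgroup.subset_closure ⟨i, hm, h, rfl⟩

theorem val_conj (hR : S_REAL) {m k : ℕ} {b g : Br} (hg : g ∈ BC m (m + k)) (h : Val m ⟨k, b⟩) :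
    Val m ⟨k, g * b * g⁻¹⟩ := by
  obtain ⟨r1, r2, r3, r4, r5, r6, r7, -⟩ := hR
  have hgN := r4 _ _ hg
  refine ⟨mul_mem (mul_mem hgN h.1) (inv_mem hgN), ?_⟩
  simp only [map_mul, map_inv]
  refine ok_conj (r3 m (m + k) g hg) ?_ h.2
  intro a ha
  have := r2 (m + k) g⁻¹ (inv_mem hgN) a ha
  rwa [map_inv] at this

theorem val_stab (hR : S_REAL) {m k : ℕ} {x y S : Br} (h : 0 < m + k) (hx : x ∈ BN (m + k))
    (hy : y ∈ BN (m + k)) (hS : S = s (m + k - 1) ∨ S = (s (m + k - 1))⁻¹) :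
    Val m ⟨k, x * y⟩ ↔ Val m ⟨k + 1, x * S * y⟩ := by
  obtain ⟨r1, r2, r3, r4, r5, r6, r7, -⟩ := hR
  have hmem : s (m + k - 1) ∈ BN (m + (k + 1)) := s_mem_BN (by omega)
  have hS2 : S ∈ BN (m + (k + 1)) := by
    rcases hS with h | h <;> rw [h]
    · exact hmem
    · exact inv_mem hmem
  have hpS : pm S = Equiv.swap (m + k - 1) (m + k) := by
    have e : m + k - 1 + 1 = m + k := by omega
    rcases hS with h | h <;> rw [h]
    · rw [pm_s, e]
    · rw [map_inv, pm_s, e, Equiv.swap_inv]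
  have hle := r5 (m + k) (m + (k + 1)) (by omega)
  have hyN : (pm y)⁻¹ (m + k) = m + k := by
    rw [← map_inv]; exact r1 _ _ (inv_mem hy) _ le_rfl
  have hperm : pm (x * S * y) = pm (x * y) * Equiv.swap ((pm y)⁻¹ (m + k - 1)) (m + k) := by
    rw [map_mul, map_mul, map_mul, hpS, mul_assoc, Equiv.swap_mul_eq_mul_swap, hyN, mul_assoc]
  have hc : (pm y)⁻¹ (m + k - 1) < m + k := by
    rw [← map_inv]; exact r2 _ _ (inv_mem hy) _ (by omega)
  have hok : Ok m (m + (k + 1)) (pm (x * S * y)) ↔ Ok m (m + k) (pm (x * y)) := by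
    rw [hperm]
    exact ok_swap (N := m + k) (Nat.le_add_right m k) (r1 _ _ (mul_mem hx hy) _ le_rfl) hc
  constructor
  · rintro ⟨_, h2⟩
    exact ⟨mul_mem (mul_mem (hle hx) hS2) (hle hy), hok.mpr h2⟩
  · rintro ⟨_, h2⟩
    exact ⟨mul_mem hx hy, hok.mp h2⟩

theorem val_mv (hR : S_REAL) {m : ℕ} {d e : RD} (h : Mv m d e) : Val m d ↔ Val m e := by
  cases h with
  | conj k b g hg =>
    constructor
    · exact val_conj hR hg
    · intro h
      have := val_conj hR (inv_mem hg) h
      have e : g⁻¹ * (g * b * g⁻¹) * g⁻¹⁻¹ = b := by group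
      rwa [e] at this
  | stab k x y h hx hy => exact val_stab hR h hx hy (Or.inl rfl)
  | stabInv k x y h hx hy => exact val_stab hR h hx hy (Or.inr rfl)

theorem val_mul (hPsi : S_PSI) (hR : S_REAL) {m : ℕ} {d e : RD} (hd : Val m d) (he : Val m e) :
    Val m (mul m d e) := by
  obtain ⟨-, p2, -, -, p5, p6, -⟩ := hPsi
  obtain ⟨r1, r2, r3, r4, r5, r6, r7, -⟩ := hR
  refine ⟨?_, ?_⟩
  · have h1 : d.b ∈ BN (m + (d.k + e.k)) := r5 _ _ (by omega) hd.1
    have h2 := p2 m d.k e.k e.b he.1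
    rw [add_assoc] at h2
    exact mul_mem h1 h2
  · change Ok m (m + (d.k + e.k)) (pm (d.b * psiK m d.k e.b))
    rw [map_mul]
    exact ok_mul (r2 _ _ hd.1) (r1 _ _ hd.1) (r2 _ _ he.1) (r1 _ _ he.1) (p5 m d.k e.b)
      (p6 m d.k e.b) hd.2 he.2

/-! ## `psiK` on generators -/

theorem psi_ge {m i : ℕ} (h : m ≤ i) : psi m (s i) = s (i + 1) := by
  rw [psi_s, if_neg (by omega), if_neg (by omega)]

theorem psiK_ge {m : ℕ} (k : ℕ) {i : ℕ} (h : m ≤ i) : psiK m k (s i) = s (i + k) := by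
  induction k with
  | zero => rfl
  | succ k ih =>
    change psi m (psiK m k (s i)) = _
    rw [ih, psi_ge (by omega)]
    rfl

theorem psiK_BC {m k k' : ℕ} {g : Br} (hg : g ∈ BC m (m + k')) :
    psiK m k g ∈ BC m (m + (k + k')) := by
  have : BC m (m + k') ≤ (BC m (m + (k + k'))).comap (psiK m k) := by
    refine (Subgroup.closure_le _).mpr ?_
    rintro x ⟨i, h1, h2, rfl⟩
    change psiK m k (s i) ∈ BC m (m + (k + k'))
    rw [psiK_ge k h1]
    exact s_mem_BC (by omega) (by omega)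
  exact this hg

theorem psiK_last (hPsi : S_PSI) {m : ℕ} (hm : 0 < m) (k : ℕ) :
    ∃ v ∈ BN (m + k), psiK m k (s (m - 1)) = v * s (m + k - 1) * v⁻¹ := by
  obtain ⟨-, p2, -⟩ := hPsi
  induction k with
  | zero => exact ⟨1, one_mem _, by simp [psiK]⟩
  | succ k ih =>
    obtain ⟨v, hv, he⟩ := ih
    rcases Nat.eq_zero_or_pos k with hk | hk
    · subst hk
      have e : psiK m (0 + 1) (s (m - 1)) = s m * s (m - 1) * (s m)⁻¹ := by
        change psi m (s (m - 1)) = _
        rw [psi_s, if_neg (by omega), if_pos (by omega)]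
      refine ⟨(s (m - 1))⁻¹, inv_mem (s_mem_BN (by omega)), ?_⟩
      rw [e]
      have hb := s_braid (m - 1)
      have e2 : m - 1 + 1 = m := by omega
      have e3 : m + (0 + 1) - 1 = m := by omega
      rw [e2] at hb
      rw [e3, inv_inv]
      calc s m * s (m - 1) * (s m)⁻¹
          = (s (m - 1))⁻¹ * (s (m - 1) * s m * s (m - 1)) * (s m)⁻¹ := by group
        _ = (s (m - 1))⁻¹ * (s m * s (m - 1) * s m) * (s m)⁻¹ := by rw [hb]
        _ = (s (m - 1))⁻¹ * s m * s (m - 1) := by group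
    · refine ⟨psi m v, ?_, ?_⟩
      · have := p2 m 1 k v hv
        rw [add_assoc, add_comm 1 k] at this
        exact this
      · change psi m (psiK m k (s (m - 1))) = _
        rw [he, map_mul, map_mul, map_inv, psi_ge (by omega)]
        congr 3
        omega

/-- The generator `σ_{N-1}` conjugated with `σ_N ⋯ σ_{N+k'-1}`. -/
theorem up_conj (hR : S_REAL) {N : ℕ} (hN : 0 < N) (k' : ℕ) :
    ∃ v ∈ BN (N + k'), (up N k')⁻¹ * s (N - 1) * up N k' = v * s (N + k' - 1) * v⁻¹ := by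
  obtain ⟨r1, r2, r3, r4, r5, r6, r7, -⟩ := hR
  induction k' with
  | zero => exact ⟨1, one_mem _, by simp [up]⟩
  | succ k' ih =>
    obtain ⟨v, hv, he⟩ := ih
    have hc : Commute v (s (N + k')) :=
      r7 (N + k') (N + k' + 2) v (s (N + k')) hv (s_mem_BC le_rfl (by omega))
    have hb := s_braid (N + k' - 1)
    have e2 : N + k' - 1 + 1 = N + k' := by omega
    rw [e2] at hb
    have e3 : N + (k' + 1) - 1 = N + k' := by omega
    refine ⟨v * s (N + k' - 1), mul_mem (r5 _ _ (by omega) hv) (s_mem_BN (by omega)), ?_⟩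
    rw [e3]
    change (up N k' * s (N + k'))⁻¹ * s (N - 1) * (up N k' * s (N + k')) = _
    have hb2 : (s (N + k'))⁻¹ * s (N + k' - 1) * s (N + k') =
        s (N + k' - 1) * s (N + k') * (s (N + k' - 1))⁻¹ := by
      calc (s (N + k'))⁻¹ * s (N + k' - 1) * s (N + k')
          = (s (N + k'))⁻¹ * (s (N + k' - 1) * s (N + k') * s (N + k' - 1)) *
              (s (N + k' - 1))⁻¹ := by group
        _ = (s (N + k'))⁻¹ * (s (N + k') * s (N + k' - 1) * s (N + k')) *
              (s (N + k' - 1))⁻¹ := by rw [hb]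
        _ = s (N + k' - 1) * s (N + k') * (s (N + k' - 1))⁻¹ := by group
    have hc2 : (s (N + k'))⁻¹ * v = v * (s (N + k'))⁻¹ := (hc.inv_right.eq).symm
    have hc3 : v⁻¹ * s (N + k') = s (N + k') * v⁻¹ := hc.inv_left.eq
    calc (up N k' * s (N + k'))⁻¹ * s (N - 1) * (up N k' * s (N + k'))
        = (s (N + k'))⁻¹ * ((up N k')⁻¹ * s (N - 1) * up N k') * s (N + k') := by group
      _ = (s (N + k'))⁻¹ * v * s (N + k' - 1) * (v⁻¹ * s (N + k')) := by rw [he]; group
      _ = v * (s (N + k'))⁻¹ * s (N + k' - 1) * (s (N + k') * v⁻¹) := by rw [hc2, hc3]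
      _ = v * ((s (N + k'))⁻¹ * s (N + k' - 1) * s (N + k')) * v⁻¹ := by group
      _ = v * s (N + k' - 1) * s (N + k') * (v * s (N + k' - 1))⁻¹ := by rw [hb2]; group

theorem up_mem_BC (N k' : ℕ) : up N k' ∈ BC N (N + k' + 1) := by
  induction k' with
  | zero => exact one_mem _
  | succ k' ih =>
    refine mul_mem ?_ (s_mem_BC (by omega) (by omega))
    exact (Subgroup.closure_mono (by
      rintro x ⟨i, h1, h2, rfl⟩
      exact ⟨i, h1, by omega, rfl⟩)) ih

/-! ## Congruence -/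

theorem mv_stab {m k : ℕ} {x y : Br} {F : ℕ → Br} (hF : F = s ∨ F = fun i => (s i)⁻¹)
    (h : 0 < m + k) (hx : x ∈ BN (m + k)) (hy : y ∈ BN (m + k)) :
    Mv m ⟨k, x * y⟩ ⟨k + 1, x * F (m + k - 1) * y⟩ := by
  rcases hF with hF | hF <;> subst hF
  · exact Mv.stab k x y h hx hy
  · exact Mv.stabInv k x y h hx hy

theorem stab_left (hPsi : S_PSI) (hR : S_REAL) {m k k' : ℕ} {x y b' : Br} {F : ℕ → Br}
    (hF : F = s ∨ F = fun i => (s i)⁻¹) (h : 0 < m + k) (hx : x ∈ BN (m + k))
    (hy : y ∈ BN (m + k)) (hb' : b' ∈ BN (m + k'))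
    (hv : Val m ⟨k + k', x * y * psiK m k b'⟩) :
    Mk m ⟨k + k', x * y * psiK m k b'⟩ ⟨k + 1 + k', x * F (m + k - 1) * y * psiK m (k + 1) b'⟩ := by
  obtain ⟨v, hv1, hv2⟩ := up_conj hR h k'
  have hR' := hR
  have hP' := hPsi
  obtain ⟨-, p2, -, -, -, -, p7, -⟩ := hP'
  obtain ⟨r1, r2, r3, r4, r5, r6, r7, -⟩ := hR'
  have hN : m + k ≤ m + (k + k') := by omega
  have e0 : m + k + k' = m + (k + k') := by omega
  have e1 : m + k + k' - 1 = m + (k + k') - 1 := by omega
  rw [e0] at hv1 hv2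
  have hψ : psiK m k b' ∈ BN (m + (k + k')) := by
    have := p2 m k k' b' hb'
    rwa [e0] at this
  have hvF : (up (m + k) k')⁻¹ * F (m + k - 1) * up (m + k) k' =
      v * F (m + (k + k') - 1) * v⁻¹ := by
    rcases hF with hF | hF <;> subst hF
    · exact hv2
    · have := congrArg (fun z => z⁻¹) hv2
      simp only [mul_inv_rev, inv_inv] at this
      simp only
      rw [mul_assoc, this, mul_assoc]
  have hw : up (m + k) k' ∈ BC (m + k) (m + k + k' + 1) := up_mem_BC _ _
  have hwx : up (m + k) k' * x = x * up (m + k) k' := (r7 _ _ _ _ hx hw).eq.symm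
  have hwy : up (m + k) k' * y = y * up (m + k) k' := (r7 _ _ _ _ hy hw).eq.symm
  have hwm : up (m + k) k' ∈ BC m (m + (k + k' + 1)) := by
    refine (Subgroup.closure_mono ?_) hw
    rintro z ⟨i, h1, h2, rfl⟩
    exact ⟨i, by omega, by omega, rfl⟩
  have hstab := mv_stab (m := m) (k := k + k') (x := x * v) (y := v⁻¹ * y * psiK m k b') hF
    (by omega) (mul_mem (r5 _ _ hN hx) hv1)
    (mul_mem (mul_mem (inv_mem hv1) (r5 _ _ hN hy)) hψ)
  have ea : x * v * (v⁻¹ * y * psiK m k b') = x * y * psiK m k b' := by group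
  rw [ea] at hstab
  have hconj := Mv.conj (m := m) (k + k' + 1)
    (x * v * F (m + (k + k') - 1) * (v⁻¹ * y * psiK m k b')) (up (m + k) k') hwm
  have eb : up (m + k) k' * (x * v * F (m + (k + k') - 1) * (v⁻¹ * y * psiK m k b')) *
      (up (m + k) k')⁻¹ = x * F (m + k - 1) * y * psiK m (k + 1) b' := by
    rw [p7 m k k' b' hb']
    calc up (m + k) k' * (x * v * F (m + (k + k') - 1) * (v⁻¹ * y * psiK m k b')) *
          (up (m + k) k')⁻¹
        = up (m + k) k' * x * (v * F (m + (k + k') - 1) * v⁻¹) * y * psiK m k b' *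
          (up (m + k) k')⁻¹ := by group
      _ = x * up (m + k) k' * ((up (m + k) k')⁻¹ * F (m + k - 1) * up (m + k) k') * y *
          psiK m k b' * (up (m + k) k')⁻¹ := by rw [hvF, hwx]
      _ = x * F (m + k - 1) * (up (m + k) k' * y) * psiK m k b' * (up (m + k) k')⁻¹ := by group
      _ = x * F (m + k - 1) * (y * up (m + k) k') * psiK m k b' * (up (m + k) k')⁻¹ := by
          rw [hwy]
      _ = x * F (m + k - 1) * y * (up (m + k) k' * psiK m k b' * (up (m + k) k')⁻¹) := by group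
  rw [eb] at hconj
  have ec : k + 1 + k' = k + k' + 1 := by omega
  rw [ec]
  have hv3 := (val_mv hR hstab).mp hv
  have hv4 := (val_mv hR hconj).mp hv3
  exact Relation.EqvGen.trans _ _ _ (Relation.EqvGen.rel _ _ ⟨hv, hv3, hstab⟩)
    (Relation.EqvGen.rel _ _ ⟨hv3, hv4, hconj⟩)

theorem mk_left_step (hPsi : S_PSI) (hR : S_REAL) {m : ℕ} {d d' e : RD} (hd : Val m d)
    (he : Val m e) (h : Mv m d d') : Mk m (mul m d e) (mul m d' e) := by
  have hv := val_mul hPsi hR hd he
  cases h with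
  | conj k b g hg =>
    have hR' := hR
    have hP' := hPsi
    obtain ⟨-, p2, p3, -⟩ := hP'
    obtain ⟨r1, r2, r3, r4, r5, r6, r7, -⟩ := hR'
    have hc := (p3 m k g e.b hg).inv_left.eq
    have eb : mul m ⟨k, g * b * g⁻¹⟩ e = ⟨k + e.k, g * (b * psiK m k e.b) * g⁻¹⟩ := by
      simp only [mul]
      congr 1
      rw [mul_assoc, hc]
      group
    have hm : Mv m (mul m ⟨k, b⟩ e) (mul m ⟨k, g * b * g⁻¹⟩ e) := by
      rw [eb]
      exact Mv.conj (k + e.k) (b * psiK m k e.b) g (r6 _ _ _ (by omega) hg)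
    exact Relation.EqvGen.rel _ _ ⟨hv, (val_mv hR hm).mp hv, hm⟩
  | stab k x y h hx hy => exact stab_left hPsi hR (Or.inl rfl) h hx hy he.1 hv
  | stabInv k x y h hx hy => exact stab_left hPsi hR (Or.inr rfl) h hx hy he.1 hv

theorem stab_right (hPsi : S_PSI) (hR : S_REAL) {m k k' : ℕ} {x y b : Br} {F : ℕ → Br}
    (hF : F = s ∨ F = fun i => (s i)⁻¹) (h : 0 < m + k') (hb : b ∈ BN (m + k))
    (hx : x ∈ BN (m + k')) (hy : y ∈ BN (m + k'))
    (hv : Val m ⟨k + k', b * psiK m k (x * y)⟩) :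
    Mk m ⟨k + k', b * psiK m k (x * y)⟩
      ⟨k + (k' + 1), b * psiK m k (x * F (m + k' - 1) * y)⟩ := by
  have hR' := hR
  have hP' := hPsi
  obtain ⟨-, p2, -⟩ := hP'
  obtain ⟨r1, r2, r3, r4, r5, r6, r7, -⟩ := hR'
  have e0 : m + k + k' = m + (k + k') := by omega
  have hψ : ∀ z, z ∈ BN (m + k') → psiK m k z ∈ BN (m + (k + k')) := by
    intro z hz
    have := p2 m k k' z hz
    rwa [e0] at this
  have hN : m + k ≤ m + (k + k') := by omega
  -- the image of the generator
  obtain ⟨v, hv1, hv2⟩ : ∃ v ∈ BN (m + (k + k')), psiK m k (F (m + k' - 1)) =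
      v * F (m + (k + k') - 1) * v⁻¹ := by
    have hs : ∃ v ∈ BN (m + (k + k')), psiK m k (s (m + k' - 1)) =
        v * s (m + (k + k') - 1) * v⁻¹ := by
      rcases Nat.eq_zero_or_pos k' with h0 | h0
      · subst h0
        obtain ⟨v, h1, h2⟩ := psiK_last hPsi (m := m) (by omega) k
        exact ⟨v, h1, h2⟩
      · refine ⟨1, one_mem _, ?_⟩
        rw [psiK_ge k (by omega)]
        rw [one_mul, inv_one, mul_one]
        congr 1
        omega
    obtain ⟨v, h1, h2⟩ := hs
    refine ⟨v, h1, ?_⟩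
    rcases hF with hF | hF <;> subst hF
    · exact h2
    · simp only [map_inv]
      rw [h2]
      group
  have hstab := mv_stab (m := m) (k := k + k') (x := b * psiK m k x * v)
    (y := v⁻¹ * psiK m k y) hF
    (by omega) (mul_mem (mul_mem (r5 _ _ hN hb) (hψ x hx)) hv1)
    (mul_mem (inv_mem hv1) (hψ y hy))
  have ea : b * psiK m k x * v * (v⁻¹ * psiK m k y) = b * psiK m k (x * y) := by
    rw [map_mul]; group
  have eb : b * psiK m k x * v * F (m + (k + k') - 1) * (v⁻¹ * psiK m k y) =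
      b * psiK m k (x * F (m + k' - 1) * y) := by
    rw [map_mul, map_mul, hv2]; group
  rw [ea, eb] at hstab
  exact Relation.EqvGen.rel _ _ ⟨hv, (val_mv hR hstab).mp hv, hstab⟩

theorem mk_right_step (hPsi : S_PSI) (hR : S_REAL) {m : ℕ} {d e e' : RD} (hd : Val m d)
    (he : Val m e) (h : Mv m e e') : Mk m (mul m d e) (mul m d e') := by
  have hv := val_mul hPsi hR hd he
  cases h with
  | conj k b g hg =>
    have hR' := hR
    have hP' := hPsi
    obtain ⟨-, p2, p3, p4, -⟩ := hP'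
    have hc := (p4 m d.k (m + k) d.b g hd.1 hg).eq
    have eb : mul m d ⟨k, g * b * g⁻¹⟩ =
        ⟨d.k + k, psiK m d.k g * (d.b * psiK m d.k b) * (psiK m d.k g)⁻¹⟩ := by
      simp only [mul]
      congr 1
      rw [map_mul, map_mul, map_inv]
      calc d.b * (psiK m d.k g * psiK m d.k b * (psiK m d.k g)⁻¹)
          = d.b * psiK m d.k g * psiK m d.k b * (psiK m d.k g)⁻¹ := by group
        _ = psiK m d.k g * d.b * psiK m d.k b * (psiK m d.k g)⁻¹ := by rw [hc]
        _ = _ := by group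
    have hm : Mv m (mul m d ⟨k, b⟩) (mul m d ⟨k, g * b * g⁻¹⟩) := by
      rw [eb]
      exact Mv.conj (d.k + k) (d.b * psiK m d.k b) (psiK m d.k g) (psiK_BC hg)
    exact Relation.EqvGen.rel _ _ ⟨hv, (val_mv hR hm).mp hv, hm⟩
  | stab k x y h hx hy => exact stab_right hPsi hR (Or.inl rfl) h hd.1 hx hy hv
  | stabInv k x y h hx hy => exact stab_right hPsi hR (Or.inr rfl) h hd.1 hx hy hv

theorem mk_left (hPsi : S_PSI) (hR : S_REAL) {m : ℕ} {d d' e : RD} (he : Val m e)
    (h : Mk m d d') : Mk m (mul m d e) (mul m d' e) := by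
  induction h with
  | rel x y hxy => exact mk_left_step hPsi hR hxy.1 he hxy.2.2
  | refl x => exact Relation.EqvGen.refl _
  | symm x y _ ih => exact Relation.EqvGen.symm _ _ ih
  | trans x y z _ _ ih1 ih2 => exact Relation.EqvGen.trans _ _ _ ih1 ih2

theorem mk_right (hPsi : S_PSI) (hR : S_REAL) {m : ℕ} {d e e' : RD} (hd : Val m d)
    (h : Mk m e e') : Mk m (mul m d e) (mul m d e') := by
  induction h with
  | rel x y hxy => exact mk_right_step hPsi hR hd hxy.1 hxy.2.2
  | refl x => exact Relation.EqvGen.refl _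
  | symm x y _ ih => exact Relation.EqvGen.symm _ _ ih
  | trans x y z _ _ ih1 ih2 => exact Relation.EqvGen.trans _ _ _ ih1 ih2

theorem mk_eqn {m n : ℕ} {d e : RD} (h : Mk m d e) : Eqn m n d e := by
  induction h with
  | rel x y hxy => exact Relation.EqvGen.rel _ _ ⟨hxy.1, hxy.2.1, Or.inl hxy.2.2⟩
  | refl x => exact Relation.EqvGen.refl _
  | symm x y _ ih => exact Relation.EqvGen.symm _ _ ih
  | trans x y z _ _ ih1 ih2 => exact Relation.EqvGen.trans _ _ _ ih1 ih2

theorem val_ins (hG : S_GAM) {m n : ℕ} {d e : RD} (hd : Val m d)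
    (h : Ins m n d e) : Val m e := by
  obtain ⟨hk, x, hx, he⟩ := h
  obtain ⟨-, -, -, g4, -⟩ := hG
  have hxp := g4 _ _ hx
  have h1 : x ∈ BN (m + d.k) := hxp.2
  have h2 : pm x = 1 := hxp.1
  refine ⟨?_, ?_⟩
  · rw [he, ← hk]; exact mul_mem hd.1 h1
  · rw [he, ← hk, map_mul, h2, mul_one]; exact hd.2

theorem eqn_left (hPsi : S_PSI) (hR : S_REAL) (hG : S_GAM) {m n : ℕ} {d d' e : RD}
    (he : Val m e) (h : Eqn m n d d') : Eqn m n (mul m d e) (mul m d' e) := by
  induction h with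
  | rel x y hxy =>
    obtain ⟨hx, hy, h | h⟩ := hxy
    · exact mk_eqn (mk_left_step hPsi hR hx he h)
    · have hI : Ins m n (mul m x e) (mul m y e) := by
        obtain ⟨hk, z, hz, hyb⟩ := h
        obtain ⟨g1, g2, -⟩ := hG
        obtain ⟨-, p2, -⟩ := hPsi
        have hψ : psiK m x.k e.b ∈ BN (m + (x.k + e.k)) := by
          have := p2 m x.k e.k e.b he.1
          rwa [add_assoc] at this
        refine ⟨by simp [mul, hk], (psiK m x.k e.b)⁻¹ * z * psiK m x.k e.b, ?_, ?_⟩
        · have := g1 (m + (x.k + e.k)) n (psiK m x.k e.b)⁻¹ z (inv_mem hψ)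
            (g2 _ _ n (by omega) hz)
          rw [inv_inv] at this
          exact this
        · simp only [mul]
          rw [hyb, ← hk]
          group
      exact Relation.EqvGen.rel _ _ ⟨val_mul hPsi hR hx he, val_mul hPsi hR hy he, Or.inr hI⟩
  | refl x => exact Relation.EqvGen.refl _
  | symm x y _ ih => exact Relation.EqvGen.symm _ _ ih
  | trans x y z _ _ ih1 ih2 => exact Relation.EqvGen.trans _ _ _ ih1 ih2

theorem eqn_right (hPsi : S_PSI) (hR : S_REAL) {m n : ℕ} {d e e' : RD}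
    (hd : Val m d) (h : Eqn m n e e') : Eqn m n (mul m d e) (mul m d e') := by
  induction h with
  | rel x y hxy =>
    obtain ⟨hx, hy, h | h⟩ := hxy
    · exact mk_eqn (mk_right_step hPsi hR hd hx h)
    · have hI : Ins m n (mul m d x) (mul m d y) := by
        obtain ⟨hk, z, hz, hyb⟩ := h
        obtain ⟨-, -, -, -, -, -, -, -, p9, -⟩ := hPsi
        refine ⟨by simp [mul, hk], psiK m d.k z, ?_, ?_⟩
        · have := p9 m d.k x.k n z hz
          rw [add_assoc] at this
          exact this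
        · simp only [mul]
          rw [hyb, map_mul, mul_assoc]
      exact Relation.EqvGen.rel _ _ ⟨val_mul hPsi hR hd hx, val_mul hPsi hR hd hy, Or.inr hI⟩
  | refl x => exact Relation.EqvGen.refl _
  | symm x y _ ih => exact Relation.EqvGen.symm _ _ ih
  | trans x y z _ _ ih1 ih2 => exact Relation.EqvGen.trans _ _ _ ih1 ih2

/-- Piece T2. -/
theorem t_MUL (hPsi : S_PSI) (hR : S_REAL) (hG : S_GAM) : S_MUL := by
  refine ⟨fun m d e hd he => val_mul hPsi hR hd he, fun m d e hd h => (val_mv hR h).mp hd,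
    fun m d e he h => (val_mv hR h).mpr he, ?_, ?_⟩
  · intro m d d' e e' hd hd' he he' h1 h2
    exact Relation.EqvGen.trans _ _ _ (mk_left hPsi hR he h1) (mk_right hPsi hR hd' h2)
  · intro m n d d' e e' hd hd' he he' h1 h2
    exact Relation.EqvGen.trans _ _ _ (eqn_left hPsi hR hG he h1) (eqn_right hPsi hR hd' h2)

end Pool.Agent.K1H73.LK
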